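import Pool.Agent.V11275.GB5

/-! # Gröbner bases of the symmetric 2-stochastic polytope: Q1 fails for every `n ≥ 4` and
every choice of the order -/

namespace Pool.Agent.Results.MP_ae75a9_co.FailsFromFour

open MvPolynomial Pool.V11275.GB

/-- The property of Q1 for one `n`, one order of the lattice points and one field: every
element `g` of degree at least `3` of the reduced Gröbner basis has the property that its matrix
is a sum of `deg g` lattice points one of which has all entries in `{0, 1}`. -/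
def Q1At (n : ℕ) (lo : LinearOrder (Pt n)) (k : Type*) [Field k] : Prop :=
  ∀ G : Set (MvPolynomial (Pt n) k), IsReducedGB (toricIdeal n k) G → ∀ g ∈ G,
    3 ≤ g.totalDegree → ∀ u ∈ g.support, ∃ M : Fin g.totalDegree → Pt n,
      ∑ i, (M i).1 = matrixOf u ∧ ∃ i, ∀ p q, (M i).1 p q ≤ 1

/-- For every `n ≥ 4`, every total order of the lattice points of `S_n` in which a matrix with
more entries equal to `2` is smaller, and every field `k`: the toric ideal has a (finite)
reduced Gröbner basis for the graded reverse lexicographic order, and every reduced Gröbner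
basis contains a binomial of degree `3` such that in every decomposition of its matrix into
lattice points every summand has an entry `2`.  In particular Q1 fails for every `n ≥ 4` and
every choice of the order. -/
theorem result (k : Type*) [Field k] (n : ℕ) (hn : 4 ≤ n) (lo : LinearOrder (Pt n))
    (hlo : ∀ M N : Pt n, twos N < twos M → M < N) :
    (∃ G : Set (MvPolynomial (Pt n) k), G.Finite ∧ IsReducedGB (toricIdeal n k) G) ∧
    (∀ G : Set (MvPolynomial (Pt n) k), IsReducedGB (toricIdeal n k) G →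
      ∃ u v : Pt n →₀ ℕ, monomial u (1 : k) - monomial v 1 ∈ G ∧ u ≠ v ∧
        u.degree = 3 ∧ v.degree = 3 ∧ matrixOf u = matrixOf v ∧
        ∀ (d : ℕ) (M : Fin d → Pt n), ∑ i, (M i).1 = matrixOf u →
          ∀ i, ∃ p q, (M i).1 p q = 2) ∧
    ¬ Q1At n lo k := by
  obtain ⟨m, rfl⟩ : ∃ m, n = m + 3 := ⟨n - 3, by omega⟩
  have hm : 1 ≤ m := by omega
  have hdeg : ∀ a b : Pt (m + 3) →₀ ℕ, wt (m + 3) a = wt (m + 3) b → a.degree = b.degree :=
    fun a b h => ((wt_eq_iff a b).1 h).1
  have hF : ∀ (u : Pt (m + 3) →₀ ℕ) (c : k),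
      toricMap (m + 3) k (monomial u c) = monomial (wt (m + 3) u) c := toricMap_monomial
  have h1 : ∃ G : Set (MvPolynomial (Pt (m + 3)) k), G.Finite ∧
      IsReducedGB (toricIdeal (m + 3) k) G := exists_gb (wt (m + 3)) hdeg hF
  have h2 : ∀ G : Set (MvPolynomial (Pt (m + 3)) k), IsReducedGB (toricIdeal (m + 3) k) G →
      ∃ u v : Pt (m + 3) →₀ ℕ, monomial u (1 : k) - monomial v 1 ∈ G ∧ u ≠ v ∧
        u.degree = 3 ∧ v.degree = 3 ∧ matrixOf u = matrixOf v ∧
        ∀ (d : ℕ) (M : Fin d → Pt (m + 3)), ∑ i, (M i).1 = matrixOf u →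
          ∀ i, ∃ p q, (M i).1 p q = 2 := by
    intro G hG
    obtain ⟨u, v, hu, hv, hw, hd, hmat⟩ := exists_bad (m := m) hlo
    have hw' := (wt_eq_iff _ _).1 hw
    refine ⟨u, v, mem_gb (wt (m + 3)) hdeg hF hG hu hv hw, ?_, hd, hw'.1.trans hd, hw'.2.symm,
      ?_⟩
    · rintro rfl
      exact hu.1 hv
    · intro d M hM i
      exact ⟨_, _, forced hmat M hM i ⟨0, hm⟩⟩
  refine ⟨h1, h2, ?_⟩
  intro hQ
  obtain ⟨G, _, hG⟩ := h1
  obtain ⟨u, v, hmem, hne, hdu, hdv, hmat, hforced⟩ := h2 G hG
  classical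
  have hsu : u ∈ (monomial u (1 : k) - monomial v 1).support := by
    rw [mem_support_iff, coeff_sub, coeff_monomial, coeff_monomial, if_pos rfl,
      if_neg (Ne.symm hne), sub_zero]
    exact one_ne_zero
  have htd : 3 ≤ (monomial u (1 : k) - monomial v 1).totalDegree := by
    have := le_totalDegree hsu
    have h3 : (u.sum fun _ e => e) = u.degree := by
      rw [Finsupp.degree_apply]; rfl
    rw [h3, hdu] at this
    exact this
  obtain ⟨M, hM, i, hi⟩ := hQ G hG _ hmem htd u hsu
  obtain ⟨p, q, hpq⟩ := hforced _ M hM i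
  have := hi p q
  omega

end Pool.Agent.Results.MP_ae75a9_co.FailsFromFour
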